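import Mathlib

set_option autoImplicit false

namespace Pool.Agent.Lib.P1ea79a

/-- Lacunary simultaneous approximation: for finitely many nonzero reals `δ j` whose sizes pairwise
differ by a factor at least `ρ`, arbitrary targets `τ j` modulo one are reached up to `ε`
by `ξ * δ j` with a single frequency `ξ`. -/
theorem exists_freq {J : Type*} [DecidableEq J] (ε ρ : ℝ) (hε : 0 < ε) (hρ : 1 / 2 + ε ≤ ρ * ε)
    (δ τ : J → ℝ) (s : Finset J) :
    (∀ j ∈ s, δ j ≠ 0) →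
    (∀ i ∈ s, ∀ j ∈ s, i ≠ j → ρ * |δ i| ≤ |δ j| ∨ ρ * |δ j| ≤ |δ i|) →
    ∀ D : ℝ, 0 < D → (∀ j ∈ s, |δ j| ≤ D) →
    ∃ ξ₀ : ℝ, ∀ ξ : ℝ, |ξ - ξ₀| ≤ ε / D → ∀ j ∈ s, ∃ z : ℤ, |ξ * δ j - τ j - z| ≤ ε := by
  classical
  have hρ1 : 1 < ρ := by
    by_contra h
    push Not at h
    nlinarith
  refine Finset.induction_on_max_value (fun j => |δ j|) s ?_ ?_
  · intro _ _ D _ _
    exact ⟨0, fun ξ _ j hj => absurd hj (Finset.notMem_empty j)⟩
  · intro a s ha hmax ih hne hpair D hD hle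
    have hane : δ a ≠ 0 := hne a (Finset.mem_insert_self a s)
    have hapos : 0 < |δ a| := abs_pos.mpr hane
    have hsmall : ∀ j ∈ s, |δ j| ≤ |δ a| / ρ := by
      intro j hj
      have hja : j ≠ a := fun h => ha (h ▸ hj)
      have h1 := hpair j (Finset.mem_insert_of_mem hj) a (Finset.mem_insert_self a s) hja
      have hjpos : 0 < |δ j| := abs_pos.mpr (hne j (Finset.mem_insert_of_mem hj))
      rw [le_div_iff₀ (by linarith)]
      rcases h1 with h1 | h1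
      · linarith
      · have h2 : |δ j| ≤ |δ a| := hmax j hj
        nlinarith
    obtain ⟨ξ₀, hξ₀⟩ := ih (fun j hj => hne j (Finset.mem_insert_of_mem hj))
      (fun i hi j hj hij => hpair i (Finset.mem_insert_of_mem hi) j (Finset.mem_insert_of_mem hj) hij)
      (|δ a| / ρ) (by positivity) hsmall
    set z : ℤ := round (ξ₀ * δ a - τ a) with hz
    have hround : |ξ₀ * δ a - τ a - z| ≤ 1 / 2 := abs_sub_round _
    set ξ₁ : ℝ := (τ a + z) / δ a with hξ₁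
    have h01 : |ξ₁ - ξ₀| ≤ 1 / 2 / |δ a| := by
      rw [le_div_iff₀ hapos, ← abs_mul]
      have : (ξ₁ - ξ₀) * δ a = -(ξ₀ * δ a - τ a - z) := by
        rw [hξ₁]; field_simp; ring
      rw [this, abs_neg]
      exact hround
    refine ⟨ξ₁, fun ξ hξ j hj => ?_⟩
    have hDa : |δ a| ≤ D := hle a (Finset.mem_insert_self a s)
    have hξa : |ξ - ξ₁| ≤ ε / |δ a| := le_trans hξ (div_le_div_of_nonneg_left hε.le hapos hDa)
    rcases Finset.mem_insert.mp hj with rfl | hj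
    · refine ⟨z, ?_⟩
      have : ξ * δ j - τ j - z = (ξ - ξ₁) * δ j := by
        rw [hξ₁]; field_simp; ring
      rw [this, abs_mul]
      rwa [le_div_iff₀ hapos] at hξa
    · apply hξ₀ ξ _ j hj
      calc |ξ - ξ₀| = |(ξ - ξ₁) + (ξ₁ - ξ₀)| := by ring_nf
        _ ≤ |ξ - ξ₁| + |ξ₁ - ξ₀| := abs_add_le _ _
        _ ≤ ε / |δ a| + 1 / 2 / |δ a| := add_le_add hξa h01
        _ = (1 / 2 + ε) / |δ a| := by ring
        _ ≤ (ρ * ε) / |δ a| := by gcongr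
        _ = ε / (|δ a| / ρ) := by field_simp

theorem exists_freq' {J : Type*} [DecidableEq J] (ε ρ : ℝ) (hε : 0 < ε) (hρ : 1 / 2 + ε ≤ ρ * ε)
    (δ τ : J → ℝ) (s : Finset J) (h0 : ∀ j ∈ s, δ j ≠ 0)
    (h : ∀ i ∈ s, ∀ j ∈ s, i ≠ j → ρ * |δ i| ≤ |δ j| ∨ ρ * |δ j| ≤ |δ i|) :
    ∃ ξ : ℝ, ∀ j ∈ s, ∃ z : ℤ, |ξ * δ j - τ j - z| ≤ ε := by
  obtain ⟨ξ₀, hξ₀⟩ := exists_freq ε ρ hε hρ δ τ s h0 h (1 + ∑ j ∈ s, |δ j|)
    (by positivity) (fun j hj => by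
      have := Finset.single_le_sum (f := fun j => |δ j|) (fun i _ => abs_nonneg _) hj
      linarith)
  refine ⟨ξ₀, fun j hj => hξ₀ ξ₀ ?_ j hj⟩
  rw [sub_self, abs_zero]; positivity

end Pool.Agent.Lib.P1ea79a
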