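import Mathlib

set_option autoImplicit false

namespace Pool.Agent.Lib.P1ea79a

/-- From a strictly increasing real sequence one can extract points which, seen from a suitable
base point `b`, are lacunary. -/
theorem exists_lacunary (s : ℕ → ℝ) (hs : StrictMono s) (ρ : ℝ) (hρ : 1 < ρ) :
    ∃ (b : ℝ) (p : ℕ → ℕ), (∀ j, s (p j) - b ≠ 0) ∧
      (∀ i j, i ≠ j → ρ * |s (p i) - b| ≤ |s (p j) - b| ∨ ρ * |s (p j) - b| ≤ |s (p i) - b|) := by
  by_cases hb : BddAbove (Set.range s)
  · -- convergent case
    set b : ℝ := ⨆ k, s k with hbdef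
    have hlt : ∀ k, s k < b := fun k =>
      lt_of_lt_of_le (hs (Nat.lt_succ_self k)) (le_ciSup hb (k + 1))
    have hstep : ∀ k : ℕ, ∃ q : ℕ, ρ * (b - s q) ≤ b - s k := by
      intro k
      have hpos : 0 < (b - s k) / ρ := div_pos (by linarith [hlt k]) (by linarith)
      obtain ⟨q, hq⟩ := exists_lt_of_lt_ciSup (show b - (b - s k) / ρ < ⨆ k, s k by
        rw [← hbdef]; linarith)
      refine ⟨q, ?_⟩
      have h1 : b - s q ≤ (b - s k) / ρ := by linarith
      rw [le_div_iff₀ (by linarith)] at h1
      linarith
    choose F hF using hstep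
    let p : ℕ → ℕ := fun j => F^[j] 0
    have hp : ∀ j, ρ * (b - s (p (j + 1))) ≤ b - s (p j) := by
      intro j
      have : p (j + 1) = F (p j) := Function.iterate_succ_apply' F j 0
      rw [this]; exact hF _
    have hanti : Antitone (fun j => b - s (p j)) := antitone_nat_of_succ_le (fun j => by
      have h1 := hp j
      have h2 := hlt (p (j + 1))
      nlinarith)
    have hlac : ∀ i j, i < j → ρ * |s (p j) - b| ≤ |s (p i) - b| := by
      intro i j hij
      have h1 : b - s (p j) ≤ b - s (p (i + 1)) := hanti hij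
      have h2 := hp i
      rw [abs_sub_comm, abs_sub_comm (s (p i)), abs_of_pos (sub_pos.mpr (hlt _)),
        abs_of_pos (sub_pos.mpr (hlt _))]
      nlinarith
    refine ⟨b, p, fun j => (sub_neg.mpr (hlt _)).ne, fun i j hij => ?_⟩
    rcases lt_or_gt_of_ne hij with h | h
    · exact Or.inr (hlac i j h)
    · exact Or.inl (hlac j i h)
  · -- unbounded case
    set b : ℝ := s 0 - 1 with hbdef
    have hlt : ∀ k, 1 ≤ s k - b := fun k => by
      have := hs.monotone (Nat.zero_le k)
      rw [hbdef]; linarith
    have hstep : ∀ k : ℕ, ∃ q : ℕ, ρ * (s k - b) ≤ s q - b := by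
      intro k
      by_contra hcon
      push Not at hcon
      apply hb
      refine ⟨ρ * (s k - b) + b, ?_⟩
      rintro _ ⟨q, rfl⟩
      linarith [hcon q]
    choose F hF using hstep
    let p : ℕ → ℕ := fun j => F^[j] 0
    have hp : ∀ j, ρ * (s (p j) - b) ≤ s (p (j + 1)) - b := by
      intro j
      have : p (j + 1) = F (p j) := Function.iterate_succ_apply' F j 0
      rw [this]; exact hF _
    have hmono : Monotone (fun j => s (p j) - b) := monotone_nat_of_le_succ (fun j => by
      have h1 := hp j
      have h2 := hlt (p j)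
      nlinarith)
    have hlac : ∀ i j, i < j → ρ * |s (p i) - b| ≤ |s (p j) - b| := by
      intro i j hij
      have h1 : s (p (i + 1)) - b ≤ s (p j) - b := hmono hij
      have h2 := hp i
      rw [abs_of_pos (by linarith [hlt (p i)]), abs_of_pos (by linarith [hlt (p j)])]
      linarith
    refine ⟨b, p, fun j => by have := hlt (p j); intro h; linarith, fun i j hij => ?_⟩
    rcases lt_or_gt_of_ne hij with h | h
    · exact Or.inl (hlac i j h)
    · exact Or.inr (hlac j i h)

end Pool.Agent.Lib.P1ea79a
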