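import Mathlib

set_option autoImplicit false

namespace Pool.Agent.Lib.P1ea79a

open Finset

/-- The linear functional `x ↦ a_i · x`. -/
noncomputable def fnl {n m : ℕ} (a : Fin m → Fin n → ℝ) (i : Fin m) (x : Fin n → ℝ) : ℝ :=
  ∑ j, a i j * x j

/-- The norm `N x = max_i |a_i · x|`. -/
noncomputable def nrm {n m : ℕ} (a : Fin m → Fin n → ℝ) (x : Fin n → ℝ) : ℝ :=
  ⨆ i, |fnl a i x|

variable {n m : ℕ} (a : Fin m → Fin n → ℝ)

theorem fnl_sub (i : Fin m) (x y : Fin n → ℝ) : fnl a i (x - y) = fnl a i x - fnl a i y := by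
  simp [fnl, mul_sub, Finset.sum_sub_distrib]

theorem fnl_add (i : Fin m) (x y : Fin n → ℝ) : fnl a i (x + y) = fnl a i x + fnl a i y := by
  simp [fnl, mul_add, Finset.sum_add_distrib]

theorem abs_fnl_le_nrm (i : Fin m) (x : Fin n → ℝ) : |fnl a i x| ≤ nrm a x :=
  le_ciSup (f := fun i => |fnl a i x|) (Set.finite_range _).bddAbove i

theorem exists_nrm_eq [Nonempty (Fin m)] (x : Fin n → ℝ) : ∃ i, |fnl a i x| = nrm a x :=
  exists_eq_ciSup_of_finite (f := fun i => |fnl a i x|)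

theorem nrm_add_le [Nonempty (Fin m)] (x y : Fin n → ℝ) : nrm a (x + y) ≤ nrm a x + nrm a y := by
  obtain ⟨i, hi⟩ := exists_nrm_eq a (x + y)
  rw [← hi, fnl_add]
  exact (abs_add_le _ _).trans (add_le_add (abs_fnl_le_nrm a i x) (abs_fnl_le_nrm a i y))

/-- `σ * a_i` attains the norm of the difference `y - x`. -/
def rel (g : Fin m × Bool) (x y : Fin n → ℝ) : Prop :=
  nrm a (y - x) = (if g.2 then 1 else -1) * fnl a g.1 (y - x)

theorem rel_trans [Nonempty (Fin m)] (g : Fin m × Bool) : IsTrans (Fin n → ℝ) (rel a g) := by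
  refine ⟨fun x y z hxy hyz => ?_⟩
  unfold rel at *
  apply le_antisymm
  · calc nrm a (z - x) = nrm a ((z - y) + (y - x)) := by congr 1; abel
      _ ≤ nrm a (z - y) + nrm a (y - x) := nrm_add_le a _ _
      _ = _ := by
        rw [hxy, hyz, ← mul_add, ← fnl_add]
        congr 2; abel
  · have h := abs_fnl_le_nrm a g.1 (z - x)
    have h' := abs_le.mp h
    split_ifs
    · linarith [h'.2]
    · linarith [h'.1]

theorem exists_subseq_rel [Nonempty (Fin m)] (X : ℕ → Fin n → ℝ) (s : Finset (Fin m × Bool)) :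
    ∃ φ : ℕ → ℕ, StrictMono φ ∧ ∀ g ∈ s, (∀ p q, p < q → rel a g (X (φ p)) (X (φ q))) ∨
      (∀ p q, p < q → ¬ rel a g (X (φ p)) (X (φ q))) := by
  classical
  induction s using Finset.induction_on with
  | empty => exact ⟨id, strictMono_id, by simp⟩
  | insert g s hg ih =>
    obtain ⟨φ, hφ, h⟩ := ih
    have := rel_trans a g
    obtain ⟨ψ, hψ⟩ := exists_increasing_or_nonincreasing_subseq (rel a g) (fun k => X (φ k))
    refine ⟨fun k => φ (ψ k), hφ.comp ψ.strictMono, fun g' hg' => ?_⟩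
    rcases Finset.mem_insert.mp hg' with rfl | hg'
    · exact hψ
    · rcases h g' hg' with h1 | h1
      · exact Or.inl fun p q hpq => h1 _ _ (ψ.strictMono hpq)
      · exact Or.inr fun p q hpq => h1 _ _ (ψ.strictMono hpq)

/-- Infinite sets contain a sequence on which one signed functional is isometric. -/
theorem exists_onedim [Nonempty (Fin m)] (M : Set (Fin n → ℝ)) (hM : M.Infinite) :
    ∃ (X : ℕ → Fin n → ℝ) (s : ℕ → ℝ), (∀ p, X p ∈ M) ∧ (Function.Injective X) ∧
      (∀ p q, p < q → nrm a (X q - X p) = s q - s p) := by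
  classical
  let e := hM.natEmbedding
  obtain ⟨φ, hφ, h⟩ := exists_subseq_rel a (fun k => (e k : Fin n → ℝ)) Finset.univ
  obtain ⟨i, hi⟩ := exists_nrm_eq a ((e (φ 1) : Fin n → ℝ) - (e (φ 0) : Fin n → ℝ))
  have hg : ∃ g : Fin m × Bool, rel a g (e (φ 0) : Fin n → ℝ) (e (φ 1) : Fin n → ℝ) := by
    rcases le_total 0 (fnl a i ((e (φ 1) : Fin n → ℝ) - (e (φ 0) : Fin n → ℝ))) with h0 | h0
    · refine ⟨(i, true), ?_⟩
      unfold rel
      rw [← hi, abs_of_nonneg h0]; simp
    · refine ⟨(i, false), ?_⟩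
      unfold rel
      rw [← hi, abs_of_nonpos h0]; simp
  obtain ⟨g, hg⟩ := hg
  have hall : ∀ p q, p < q → rel a g (e (φ p) : Fin n → ℝ) (e (φ q) : Fin n → ℝ) := by
    rcases h g (Finset.mem_univ g) with h1 | h1
    · exact h1
    · exact absurd hg (h1 0 1 Nat.zero_lt_one)
  refine ⟨fun p => e (φ p), fun p => (if g.2 then 1 else -1) * fnl a g.1 (e (φ p)),
    fun p => (e (φ p)).2, ?_, ?_⟩
  · intro p q hpq
    exact hφ.injective (e.injective (Subtype.ext hpq))
  · intro p q hpq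
    have := hall p q hpq
    unfold rel at this
    rw [this, fnl_sub]; ring

end Pool.Agent.Lib.P1ea79a
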