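import Mathlib
import Pool.Agent.Lib.P1ea79a.Freq
import Pool.Agent.Lib.P1ea79a.Ramsey
import Pool.Agent.Lib.P1ea79a.Lac

set_option autoImplicit false

namespace Pool.Agent.Lib.P1ea79a

open Finset

/-- Any `n + 1` vectors in `ℝ^n` are linearly dependent. -/
theorem exists_dependency {n m : ℕ} (a : Fin m → Fin n → ℝ) (ι : Fin (n + 1) → Fin m) :
    ∃ lam : Fin (n + 1) → ℝ, (∃ c, lam c ≠ 0) ∧ ∀ y : Fin n → ℝ, ∑ c, lam c * fnl a (ι c) y = 0 := by
  let T : (Fin (n + 1) → ℝ) →ₗ[ℝ] (Fin n → ℝ) :=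
    { toFun := fun l j => ∑ c, l c * a (ι c) j
      map_add' := by
        intro x y; funext j; simp [add_mul, Finset.sum_add_distrib]
      map_smul' := by
        intro r x; funext j; simp [Finset.mul_sum, mul_assoc] }
  have hker : LinearMap.ker T ≠ ⊥ := LinearMap.ker_ne_bot_of_finrank_lt (by simp)
  obtain ⟨l, hl, hl0⟩ := (Submodule.ne_bot_iff _).mp hker
  refine ⟨l, Function.ne_iff.mp hl0, fun y => ?_⟩
  have hT : ∀ j, ∑ c, l c * a (ι c) j = 0 := fun j => congrFun (LinearMap.mem_ker.mp hl) j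
  calc ∑ c, l c * fnl a (ι c) y = ∑ c, ∑ j, l c * a (ι c) j * y j := by
        simp [fnl, Finset.mul_sum, mul_assoc]
    _ = ∑ j, (∑ c, l c * a (ι c) j) * y j := by
        rw [Finset.sum_comm]; simp [Finset.sum_mul]
    _ = 0 := by simp [hT]

/-- The choice of frequencies. -/
theorem exists_freqs {C I : Type} [Fintype C] [Fintype I] [DecidableEq C] [DecidableEq I]
    (lam : (C → I) → C → ℝ) (s : ℕ → ℝ) (hs : StrictMono s) (ε : ℝ) (hε : 0 < ε) (Q : ℕ) :
    ∃ (b : ℝ) (P : ℕ) (pt : C × I × ((C → I) → Fin Q) → ℕ) (ξ : (C → I) → ℝ),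
      (∀ j, pt j ≤ P) ∧
      ∀ (ι : C → I) (c : C) (g : (C → I) → Fin Q), lam ι c ≠ 0 →
        ∃ z : ℤ, |ξ ι * (lam ι c * (s (pt (c, ι c, g)) - b)) - (g ι : ℝ) / Q - z| ≤ ε := by
  classical
  set ρ : ℝ := 1 + 1 / ε with hρdef
  have h1ε : 0 < 1 / ε := by positivity
  have hρε : 1 / 2 + ε ≤ ρ * ε := by
    rw [hρdef, add_mul, one_div_mul_cancel hε.ne']; linarith
  -- bound for the ratios of coefficients
  set R : ℝ := 1 + ∑ ι : C → I, ∑ c : C, ∑ c' : C, |lam ι c'| / |lam ι c| with hRdef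
  have hRsum : 0 ≤ ∑ ι : C → I, ∑ c : C, ∑ c' : C, |lam ι c'| / |lam ι c| := by positivity
  have hR : ∀ ι c c', |lam ι c'| / |lam ι c| ≤ R := by
    intro ι c c'
    have h1 : |lam ι c'| / |lam ι c| ≤ ∑ c' : C, |lam ι c'| / |lam ι c| :=
      Finset.single_le_sum (f := fun c' => |lam ι c'| / |lam ι c|)
        (fun _ _ => by positivity) (Finset.mem_univ c')
    have h2 : ∑ c' : C, |lam ι c'| / |lam ι c| ≤ ∑ c : C, ∑ c' : C, |lam ι c'| / |lam ι c| :=
      Finset.single_le_sum (f := fun c => ∑ c' : C, |lam ι c'| / |lam ι c|)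
        (fun _ _ => by positivity) (Finset.mem_univ c)
    have h3 : ∑ c : C, ∑ c' : C, |lam ι c'| / |lam ι c| ≤
        ∑ ι : C → I, ∑ c : C, ∑ c' : C, |lam ι c'| / |lam ι c| :=
      Finset.single_le_sum (f := fun ι => ∑ c : C, ∑ c' : C, |lam ι c'| / |lam ι c|)
        (fun _ _ => by positivity) (Finset.mem_univ ι)
    linarith
  have hRpos : 0 < R := by linarith
  obtain ⟨b, p, hne, hlac⟩ := exists_lacunary s hs (ρ * R)
    (by rw [hρdef, hRdef]; nlinarith)
  let e := Fintype.equivFin (C × I × ((C → I) → Fin Q))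
  let pt : C × I × ((C → I) → Fin Q) → ℕ := fun j => p (e j)
  have hptinj : ∀ j j', j ≠ j' → ((e j : ℕ)) ≠ (e j' : ℕ) := fun j j' h h' =>
    h (e.injective (Fin.ext h'))
  have key : ∀ ι : C → I, ∃ ξ : ℝ, ∀ (c : C) (g : (C → I) → Fin Q), lam ι c ≠ 0 →
        ∃ z : ℤ, |ξ * (lam ι c * (s (pt (c, ι c, g)) - b)) - (g ι : ℝ) / Q - z| ≤ ε := by
    intro ι
    obtain ⟨ξ, hξ⟩ := exists_freq' (J := C × ((C → I) → Fin Q)) ε ρ hε hρε
      (fun j => lam ι j.1 * (s (pt (j.1, ι j.1, j.2)) - b)) (fun j => (j.2 ι : ℝ) / Q)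
      (Finset.univ.filter fun j => lam ι j.1 ≠ 0)
      (fun j hj => mul_ne_zero (Finset.mem_filter.mp hj).2 (hne _))
      (by
        intro i hi j hj hij
        have hi' := (Finset.mem_filter.mp hi).2
        have hj' := (Finset.mem_filter.mp hj).2
        have hij' : (i.1, ι i.1, i.2) ≠ (j.1, ι j.1, j.2) := by
          intro h
          apply hij
          have h1 := congrArg Prod.fst h
          have h2 := congrArg (fun x => x.2.2) h
          exact Prod.ext h1 h2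
        have hi0 : 0 < |lam ι i.1| := abs_pos.mpr hi'
        have hj0 : 0 < |lam ι j.1| := abs_pos.mpr hj'
        have hρ0 : 0 < ρ := by rw [hρdef]; linarith
        have hrij : |lam ι i.1| ≤ R * |lam ι j.1| := by
          have := hR ι j.1 i.1
          rwa [div_le_iff₀ hj0] at this
        have hrji : |lam ι j.1| ≤ R * |lam ι i.1| := by
          have := hR ι i.1 j.1
          rwa [div_le_iff₀ hi0] at this
        simp only [abs_mul]
        rcases hlac _ _ (hptinj _ _ hij') with h | h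
        · left
          calc ρ * (|lam ι i.1| * |s (pt (i.1, ι i.1, i.2)) - b|)
              ≤ ρ * (R * |lam ι j.1| * |s (pt (i.1, ι i.1, i.2)) - b|) := by gcongr
            _ = |lam ι j.1| * (ρ * R * |s (pt (i.1, ι i.1, i.2)) - b|) := by ring
            _ ≤ |lam ι j.1| * |s (pt (j.1, ι j.1, j.2)) - b| := by gcongr
        · right
          calc ρ * (|lam ι j.1| * |s (pt (j.1, ι j.1, j.2)) - b|)
              ≤ ρ * (R * |lam ι i.1| * |s (pt (j.1, ι j.1, j.2)) - b|) := by gcongr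
            _ = |lam ι i.1| * (ρ * R * |s (pt (j.1, ι j.1, j.2)) - b|) := by ring
            _ ≤ |lam ι i.1| * |s (pt (i.1, ι i.1, i.2)) - b| := by gcongr)
    refine ⟨ξ, fun c g hc => ?_⟩
    exact hξ (c, g) (Finset.mem_filter.mpr ⟨Finset.mem_univ _, hc⟩)
  choose ξ hξ using key
  refine ⟨b, ∑ j, pt j, pt, ξ, fun j => ?_, hξ⟩
  exact Finset.single_le_sum (f := pt) (fun _ _ => Nat.zero_le _) (Finset.mem_univ j)

/-- Approximating a point of the circle by the grid. -/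
theorem exists_grid (Q : ℕ) (hQ : 0 < Q) (u : ℝ) :
    ∃ (k : Fin Q) (z : ℤ), |(k : ℝ) / Q - u - z| ≤ 1 / Q := by
  have hQ' : (0 : ℝ) < Q := by exact_mod_cast hQ
  have hf0 := Int.fract_nonneg u
  have hf1 := Int.fract_lt_one u
  have hlt : ⌊(Q : ℝ) * Int.fract u⌋₊ < Q := by
    rw [Nat.floor_lt (by positivity)]
    nlinarith
  refine ⟨⟨⌊(Q : ℝ) * Int.fract u⌋₊, hlt⟩, -⌊u⌋, ?_⟩
  have h1 : (⌊(Q : ℝ) * Int.fract u⌋₊ : ℝ) ≤ Q * Int.fract u := Nat.floor_le (by positivity)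
  have h2 : (Q : ℝ) * Int.fract u < ⌊(Q : ℝ) * Int.fract u⌋₊ + 1 := Nat.lt_floor_add_one _
  have h3 : (⌊(Q : ℝ) * Int.fract u⌋₊ : ℝ) / Q - u - ((-⌊u⌋ : ℤ) : ℝ) =
      ((⌊(Q : ℝ) * Int.fract u⌋₊ : ℝ) - Q * Int.fract u) / Q := by
    have hfr : Int.fract u = u - ⌊u⌋ := rfl
    have hq : (Q : ℝ) * Int.fract u / Q = Int.fract u := by field_simp
    rw [sub_div, hq, hfr]
    push_cast; ring
  simp only
  rw [h3, abs_div, abs_of_pos hQ']
  gcongr
  rw [abs_le]; constructor <;> linarith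

theorem main (n m : ℕ) (a : Fin m → Fin n → ℝ)
    (ha : ∀ x : Fin n → ℝ, x ≠ 0 → 0 < nrm a x)
    (M : Set (Fin n → ℝ)) (hM : M.Infinite) :
    ∃ c : (Fin n → ℝ) → Fin (n + 1),
      ∀ f : (Fin n → ℝ) → (Fin n → ℝ),
        (∀ x ∈ M, ∀ y ∈ M, nrm a (f x - f y) = nrm a (x - y)) →
        ¬ ∃ k : Fin (n + 1), ∀ x ∈ M, c (f x) = k := by
  classical
  -- there is at least one functional
  have hne : Nonempty (Fin m) := by
    by_contra hcon
    rw [not_nonempty_iff] at hcon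
    have h0 : ∀ x : Fin n → ℝ, x = 0 := by
      intro x
      by_contra hx
      have := ha x hx
      unfold nrm at this
      rw [Real.iSup_of_isEmpty] at this
      exact lt_irrefl _ this
    apply hM
    exact (Set.finite_singleton (0 : Fin n → ℝ)).subset (fun x _ => h0 x)
  obtain ⟨X, s, hXM, hXinj, hXs⟩ := exists_onedim a M hM
  have hs : StrictMono s := by
    intro p q hpq
    have h1 := hXs p q hpq
    have h2 := ha (X q - X p) (sub_ne_zero.mpr (fun h => hpq.ne' (hXinj h)))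
    linarith
  choose lam hlam0 hlam using exists_dependency a
  choose c0 hc0 using hlam0
  set ε : ℝ := 1 / (8 * (n + 1)) with hεdef
  have hn1 : (0 : ℝ) < n + 1 := by positivity
  have hε : 0 < ε := by rw [hεdef]; positivity
  obtain ⟨Q, hQ⟩ := exists_nat_gt (1 / ε)
  have hQ0' : (0 : ℝ) < Q := lt_trans (by positivity) hQ
  have hQ0 : 0 < Q := by exact_mod_cast hQ0'
  have hQε : 1 / (Q : ℝ) ≤ ε := by
    rw [div_le_iff₀ hQ0']
    rw [div_lt_iff₀ hε] at hQ
    linarith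
  obtain ⟨b, P, pt, ξ, hPle, hξ⟩ := exists_freqs lam s hs ε hε Q
  let θ : (Fin (n + 1) → Fin m) → Fin (n + 1) → ℝ := fun ι c => if c = c0 ι then 1 / 2 else 0
  let B : Fin (n + 1) → Fin m → Set ℝ := fun c i =>
    {t | ∀ ι : Fin (n + 1) → Fin m, ι c = i → lam ι c ≠ 0 →
      ∃ z : ℤ, |ξ ι * lam ι c * t - θ ι c - z| ≤ 2 * ε}
  -- every copy is hit
  have hit : ∀ (c : Fin (n + 1)) (i : Fin m) (t σ : ℝ), (σ = 1 ∨ σ = -1) →
      ∃ p ≤ P, t + σ * (s p - b) ∈ B c i := by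
    intro c i t σ hσ
    have hgrid : ∀ ι : Fin (n + 1) → Fin m, ∃ (k : Fin Q) (z : ℤ),
        |(k : ℝ) / Q - (-σ * (ξ ι * lam ι c * t - θ ι c)) - z| ≤ 1 / Q := fun ι =>
      exists_grid Q hQ0 _
    choose g zg hg using hgrid
    refine ⟨pt (c, i, g), hPle _, ?_⟩
    intro ι hι hl
    obtain ⟨z, hz⟩ := hξ ι c g hl
    rw [hι] at hz
    have hg' := hg ι
    rcases hσ with rfl | rfl
    · refine ⟨z + zg ι, ?_⟩
      have : ξ ι * lam ι c * (t + 1 * (s (pt (c, i, g)) - b)) - θ ι c - ((z + zg ι : ℤ) : ℝ) =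
        (ξ ι * (lam ι c * (s (pt (c, i, g)) - b)) - (g ι : ℝ) / Q - z) +
        ((g ι : ℝ) / Q - (-1 * (ξ ι * lam ι c * t - θ ι c)) - zg ι) := by
        push_cast; ring
      rw [this]
      calc _ ≤ _ := abs_add_le _ _
        _ ≤ ε + 1 / Q := add_le_add hz hg'
        _ ≤ 2 * ε := by linarith
    · refine ⟨-z - zg ι, ?_⟩
      have : ξ ι * lam ι c * (t + -1 * (s (pt (c, i, g)) - b)) - θ ι c - ((-z - zg ι : ℤ) : ℝ) =
        -((ξ ι * (lam ι c * (s (pt (c, i, g)) - b)) - (g ι : ℝ) / Q - z) +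
        ((g ι : ℝ) / Q - (- -1 * (ξ ι * lam ι c * t - θ ι c)) - zg ι)) := by
        push_cast; ring
      rw [this, abs_neg]
      calc _ ≤ _ := abs_add_le _ _
        _ ≤ ε + 1 / Q := add_le_add hz hg'
        _ ≤ 2 * ε := by linarith
  -- some colour is available at every point
  have avail : ∀ y : Fin n → ℝ, ∃ c : Fin (n + 1), ∀ i : Fin m, fnl a i y ∉ B c i := by
    intro y
    by_contra hcon
    push Not at hcon
    choose ι hι using hcon
    have hz : ∀ c : Fin (n + 1), ∃ z : ℤ,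
        |ξ ι * (lam ι c * fnl a (ι c) y) - (if c = c0 ι then 1 / 2 else 0) - z| ≤ 2 * ε := by
      intro c
      by_cases hl : lam ι c = 0
      · have hcc : c ≠ c0 ι := fun h => hc0 ι (h ▸ hl)
        refine ⟨0, ?_⟩
        simp [hl, hcc, hε.le]
      · obtain ⟨z, hz⟩ := hι c ι rfl hl
        refine ⟨z, ?_⟩
        rwa [mul_assoc] at hz
    choose z hz using hz
    have hsum : |∑ c, (ξ ι * (lam ι c * fnl a (ι c) y) - (if c = c0 ι then 1 / 2 else 0) -
        (z c : ℝ))| ≤ ∑ _c : Fin (n + 1), 2 * ε :=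
      (Finset.abs_sum_le_sum_abs _ _).trans (Finset.sum_le_sum fun c _ => hz c)
    rw [Finset.sum_sub_distrib, Finset.sum_sub_distrib, ← Finset.mul_sum, hlam ι y, mul_zero,
      Finset.sum_ite_eq' Finset.univ (c0 ι) (fun _ => (1 / 2 : ℝ))] at hsum
    simp only [Finset.mem_univ, if_true, Finset.sum_const, Finset.card_univ, Fintype.card_fin,
      nsmul_eq_mul] at hsum
    have hε4 : ((n + 1 : ℕ) : ℝ) * (2 * ε) = 1 / 4 := by
      rw [hεdef]; push_cast; field_simp; norm_num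
    rw [hε4] at hsum
    set Z : ℤ := ∑ c, z c with hZ
    have hZc : (∑ c, (z c : ℝ)) = (Z : ℝ) := by rw [hZ]; push_cast; rfl
    rw [hZc] at hsum
    have h1 := abs_le.mp hsum
    have h2 : (-1 : ℝ) < Z := by linarith [h1.2]
    have h3 : (Z : ℝ) < 0 := by linarith [h1.1]
    have h2' : (-1 : ℤ) < Z := by exact_mod_cast h2
    have h3' : Z < 0 := by exact_mod_cast h3
    omega
  choose col hcol using avail
  refine ⟨col, fun f hf => ?_⟩
  rintro ⟨k, hk⟩
  -- the copy is one-dimensional along some functional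
  obtain ⟨p1, hp1⟩ : ∃ p1 : ℕ, p1 = P + 1 := ⟨_, rfl⟩
  obtain ⟨i, hi⟩ := exists_nrm_eq a (f (X p1) - f (X 0))
  rw [hf _ (hXM p1) _ (hXM 0), hXs 0 p1 (by omega), fnl_sub] at hi
  have hlow : ∀ p, 0 < p → |fnl a i (f (X p)) - fnl a i (f (X 0))| ≤ s p - s 0 := by
    intro p hp
    rw [← fnl_sub]
    refine (abs_fnl_le_nrm a i _).trans (le_of_eq ?_)
    rw [hf _ (hXM p) _ (hXM 0), hXs 0 p hp]
  have hhigh : ∀ p, p ≤ P → |fnl a i (f (X p1)) - fnl a i (f (X p))| ≤ s p1 - s p := by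
    intro p hp
    rw [← fnl_sub]
    refine (abs_fnl_le_nrm a i _).trans (le_of_eq ?_)
    rw [hf _ (hXM p1) _ (hXM p), hXs p p1 (by omega)]
  have hlow' : ∀ p, |fnl a i (f (X p)) - fnl a i (f (X 0))| ≤ s p - s 0 := by
    intro p
    rcases Nat.eq_zero_or_pos p with rfl | hp
    · simp
    · exact hlow p hp
  obtain ⟨σ, hσ, hform⟩ : ∃ σ : ℝ, (σ = 1 ∨ σ = -1) ∧
      ∀ p ≤ P, fnl a i (f (X p)) = fnl a i (f (X 0)) + σ * (s p - s 0) := by
    rcases le_total 0 (fnl a i (f (X p1)) - fnl a i (f (X 0))) with h0 | h0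
    · refine ⟨1, Or.inl rfl, fun p hp => ?_⟩
      rw [abs_of_nonneg h0] at hi
      have h1 := abs_le.mp (hlow' p)
      have h2 := abs_le.mp (hhigh p hp)
      linarith [h1.2, h2.2]
    · refine ⟨-1, Or.inr rfl, fun p hp => ?_⟩
      rw [abs_of_nonpos h0] at hi
      have h1 := abs_le.mp (hlow' p)
      have h2 := abs_le.mp (hhigh p hp)
      linarith [h1.1, h2.1]
  obtain ⟨p, hp, hmem⟩ := hit k i (fnl a i (f (X 0)) + σ * (b - s 0)) σ hσ
  have heq : fnl a i (f (X 0)) + σ * (b - s 0) + σ * (s p - b) = fnl a i (f (X p)) := by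
    rw [hform p hp]; ring
  rw [heq] at hmem
  have := hcol (f (X p)) i
  rw [hk _ (hXM p)] at this
  exact this hmem

end Pool.Agent.Lib.P1ea79a
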