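import Mathlib
import Pool.Agent.Lib.P1ea79a.Main

set_option autoImplicit false

namespace Pool.Agent.Lib.P1ea79a

open Finset

/-- The finite form: finitely many points of `M` are enough. -/
theorem mainFin (n m : ℕ) (a : Fin m → Fin n → ℝ)
    (ha : ∀ x : Fin n → ℝ, x ≠ 0 → 0 < nrm a x)
    (M : Set (Fin n → ℝ)) (hM : M.Infinite) :
    ∃ M₀ : Set (Fin n → ℝ), M₀ ⊆ M ∧ M₀.Finite ∧ ∃ c : (Fin n → ℝ) → Fin (n + 1),
      ∀ f : (Fin n → ℝ) → (Fin n → ℝ),
        (∀ x ∈ M₀, ∀ y ∈ M₀, nrm a (f x - f y) = nrm a (x - y)) →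
        ¬ ∃ k : Fin (n + 1), ∀ x ∈ M₀, c (f x) = k := by
  classical
  -- there is at least one functional
  have hne : Nonempty (Fin m) := by
    by_contra hcon
    rw [not_nonempty_iff] at hcon
    have h0 : ∀ x : Fin n → ℝ, x = 0 := by
      intro x
      by_contra hx
      have := ha x hx
      unfold nrm at this
      rw [Real.iSup_of_isEmpty] at this
      exact lt_irrefl _ this
    apply hM
    exact (Set.finite_singleton (0 : Fin n → ℝ)).subset (fun x _ => h0 x)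
  obtain ⟨X, s, hXM, hXinj, hXs⟩ := exists_onedim a M hM
  have hs : StrictMono s := by
    intro p q hpq
    have h1 := hXs p q hpq
    have h2 := ha (X q - X p) (sub_ne_zero.mpr (fun h => hpq.ne' (hXinj h)))
    linarith
  choose lam hlam0 hlam using exists_dependency a
  choose c0 hc0 using hlam0
  set ε : ℝ := 1 / (8 * (n + 1)) with hεdef
  have hn1 : (0 : ℝ) < n + 1 := by positivity
  have hε : 0 < ε := by rw [hεdef]; positivity
  obtain ⟨Q, hQ⟩ := exists_nat_gt (1 / ε)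
  have hQ0' : (0 : ℝ) < Q := lt_trans (by positivity) hQ
  have hQ0 : 0 < Q := by exact_mod_cast hQ0'
  have hQε : 1 / (Q : ℝ) ≤ ε := by
    rw [div_le_iff₀ hQ0']
    rw [div_lt_iff₀ hε] at hQ
    linarith
  obtain ⟨b, P, pt, ξ, hPle, hξ⟩ := exists_freqs lam s hs ε hε Q
  let θ : (Fin (n + 1) → Fin m) → Fin (n + 1) → ℝ := fun ι c => if c = c0 ι then 1 / 2 else 0
  let B : Fin (n + 1) → Fin m → Set ℝ := fun c i =>
    {t | ∀ ι : Fin (n + 1) → Fin m, ι c = i → lam ι c ≠ 0 →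
      ∃ z : ℤ, |ξ ι * lam ι c * t - θ ι c - z| ≤ 2 * ε}
  -- every copy is hit
  have hit : ∀ (c : Fin (n + 1)) (i : Fin m) (t σ : ℝ), (σ = 1 ∨ σ = -1) →
      ∃ p ≤ P, t + σ * (s p - b) ∈ B c i := by
    intro c i t σ hσ
    have hgrid : ∀ ι : Fin (n + 1) → Fin m, ∃ (k : Fin Q) (z : ℤ),
        |(k : ℝ) / Q - (-σ * (ξ ι * lam ι c * t - θ ι c)) - z| ≤ 1 / Q := fun ι =>
      exists_grid Q hQ0 _
    choose g zg hg using hgrid
    refine ⟨pt (c, i, g), hPle _, ?_⟩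
    intro ι hι hl
    obtain ⟨z, hz⟩ := hξ ι c g hl
    rw [hι] at hz
    have hg' := hg ι
    rcases hσ with rfl | rfl
    · refine ⟨z + zg ι, ?_⟩
      have : ξ ι * lam ι c * (t + 1 * (s (pt (c, i, g)) - b)) - θ ι c - ((z + zg ι : ℤ) : ℝ) =
        (ξ ι * (lam ι c * (s (pt (c, i, g)) - b)) - (g ι : ℝ) / Q - z) +
        ((g ι : ℝ) / Q - (-1 * (ξ ι * lam ι c * t - θ ι c)) - zg ι) := by
        push_cast; ring
      rw [this]
      calc _ ≤ _ := abs_add_le _ _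
        _ ≤ ε + 1 / Q := add_le_add hz hg'
        _ ≤ 2 * ε := by linarith
    · refine ⟨-z - zg ι, ?_⟩
      have : ξ ι * lam ι c * (t + -1 * (s (pt (c, i, g)) - b)) - θ ι c - ((-z - zg ι : ℤ) : ℝ) =
        -((ξ ι * (lam ι c * (s (pt (c, i, g)) - b)) - (g ι : ℝ) / Q - z) +
        ((g ι : ℝ) / Q - (- -1 * (ξ ι * lam ι c * t - θ ι c)) - zg ι)) := by
        push_cast; ring
      rw [this, abs_neg]
      calc _ ≤ _ := abs_add_le _ _
        _ ≤ ε + 1 / Q := add_le_add hz hg'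
        _ ≤ 2 * ε := by linarith
  -- some colour is available at every point
  have avail : ∀ y : Fin n → ℝ, ∃ c : Fin (n + 1), ∀ i : Fin m, fnl a i y ∉ B c i := by
    intro y
    by_contra hcon
    push Not at hcon
    choose ι hι using hcon
    have hz : ∀ c : Fin (n + 1), ∃ z : ℤ,
        |ξ ι * (lam ι c * fnl a (ι c) y) - (if c = c0 ι then 1 / 2 else 0) - z| ≤ 2 * ε := by
      intro c
      by_cases hl : lam ι c = 0
      · have hcc : c ≠ c0 ι := fun h => hc0 ι (h ▸ hl)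
        refine ⟨0, ?_⟩
        simp [hl, hcc, hε.le]
      · obtain ⟨z, hz⟩ := hι c ι rfl hl
        refine ⟨z, ?_⟩
        rwa [mul_assoc] at hz
    choose z hz using hz
    have hsum : |∑ c, (ξ ι * (lam ι c * fnl a (ι c) y) - (if c = c0 ι then 1 / 2 else 0) -
        (z c : ℝ))| ≤ ∑ _c : Fin (n + 1), 2 * ε :=
      (Finset.abs_sum_le_sum_abs _ _).trans (Finset.sum_le_sum fun c _ => hz c)
    rw [Finset.sum_sub_distrib, Finset.sum_sub_distrib, ← Finset.mul_sum, hlam ι y, mul_zero,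
      Finset.sum_ite_eq' Finset.univ (c0 ι) (fun _ => (1 / 2 : ℝ))] at hsum
    simp only [Finset.mem_univ, if_true, Finset.sum_const, Finset.card_univ, Fintype.card_fin,
      nsmul_eq_mul] at hsum
    have hε4 : ((n + 1 : ℕ) : ℝ) * (2 * ε) = 1 / 4 := by
      rw [hεdef]; push_cast; field_simp; norm_num
    rw [hε4] at hsum
    set Z : ℤ := ∑ c, z c with hZ
    have hZc : (∑ c, (z c : ℝ)) = (Z : ℝ) := by rw [hZ]; push_cast; rfl
    rw [hZc] at hsum
    have h1 := abs_le.mp hsum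
    have h2 : (-1 : ℝ) < Z := by linarith [h1.2]
    have h3 : (Z : ℝ) < 0 := by linarith [h1.1]
    have h2' : (-1 : ℤ) < Z := by exact_mod_cast h2
    have h3' : Z < 0 := by exact_mod_cast h3
    omega
  choose col hcol using avail
  refine ⟨X '' (Set.Iic (P + 1)), ?_, (Set.finite_Iic (P + 1)).image X, col, fun f hf => ?_⟩
  · rintro _ ⟨p, _, rfl⟩
    exact hXM p
  rintro ⟨k, hk⟩
  have hX0 : ∀ p, p ≤ P + 1 → X p ∈ X '' (Set.Iic (P + 1)) := fun p hp => ⟨p, hp, rfl⟩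
  -- the copy is one-dimensional along some functional
  obtain ⟨p1, hp1⟩ : ∃ p1 : ℕ, p1 = P + 1 := ⟨_, rfl⟩
  obtain ⟨i, hi⟩ := exists_nrm_eq a (f (X p1) - f (X 0))
  rw [hf _ (hX0 p1 (by omega)) _ (hX0 0 (by omega)), hXs 0 p1 (by omega), fnl_sub] at hi
  have hlow : ∀ p, 0 < p → p ≤ P → |fnl a i (f (X p)) - fnl a i (f (X 0))| ≤ s p - s 0 := by
    intro p hp hpP
    rw [← fnl_sub]
    refine (abs_fnl_le_nrm a i _).trans (le_of_eq ?_)
    rw [hf _ (hX0 p (by omega)) _ (hX0 0 (by omega)), hXs 0 p hp]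
  have hhigh : ∀ p, p ≤ P → |fnl a i (f (X p1)) - fnl a i (f (X p))| ≤ s p1 - s p := by
    intro p hp
    rw [← fnl_sub]
    refine (abs_fnl_le_nrm a i _).trans (le_of_eq ?_)
    rw [hf _ (hX0 p1 (by omega)) _ (hX0 p (by omega)), hXs p p1 (by omega)]
  have hlow' : ∀ p, p ≤ P → |fnl a i (f (X p)) - fnl a i (f (X 0))| ≤ s p - s 0 := by
    intro p hpP
    rcases Nat.eq_zero_or_pos p with rfl | hp
    · simp
    · exact hlow p hp hpP
  obtain ⟨σ, hσ, hform⟩ : ∃ σ : ℝ, (σ = 1 ∨ σ = -1) ∧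
      ∀ p ≤ P, fnl a i (f (X p)) = fnl a i (f (X 0)) + σ * (s p - s 0) := by
    rcases le_total 0 (fnl a i (f (X p1)) - fnl a i (f (X 0))) with h0 | h0
    · refine ⟨1, Or.inl rfl, fun p hp => ?_⟩
      rw [abs_of_nonneg h0] at hi
      have h1 := abs_le.mp (hlow' p hp)
      have h2 := abs_le.mp (hhigh p hp)
      linarith [h1.2, h2.2]
    · refine ⟨-1, Or.inr rfl, fun p hp => ?_⟩
      rw [abs_of_nonpos h0] at hi
      have h1 := abs_le.mp (hlow' p hp)
      have h2 := abs_le.mp (hhigh p hp)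
      linarith [h1.1, h2.1]
  obtain ⟨p, hp, hmem⟩ := hit k i (fnl a i (f (X 0)) + σ * (b - s 0)) σ hσ
  have heq : fnl a i (f (X 0)) + σ * (b - s 0) + σ * (s p - b) = fnl a i (f (X p)) := by
    rw [hform p hp]; ring
  rw [heq] at hmem
  have := hcol (f (X p)) i
  rw [hk _ (hX0 p (by omega))] at this
  exact this hmem

end Pool.Agent.Lib.P1ea79a
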