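import Mathlib
import Pool.Agent.Lib.P1ea79a.Main

set_option autoImplicit false

namespace Pool.Agent.Lib.P1ea79a

open Metric

/-- A finite-dimensional normed space whose closed unit ball is a polytope: the norm is the
maximum of finitely many absolute values of functionals. -/
theorem exists_functionals {E : Type} [NormedAddCommGroup E] [NormedSpace ℝ E]
    [FiniteDimensional ℝ E] (V : Set E) (hV : V.Finite)
    (hball : closedBall (0 : E) 1 = convexHull ℝ V) :
    ∃ (m : ℕ) (φ : Fin m → E →ₗ[ℝ] ℝ), (∀ i x, |φ i x| ≤ ‖x‖) ∧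
      ∀ x, ∃ i, |φ i x| = ‖x‖ := by
  classical
  let D : Set (E →L[ℝ] ℝ) := closedBall 0 1
  have hVD : ∀ φ : E →L[ℝ] ℝ, (∀ v ∈ V, φ v ≤ 1) → φ ∈ D := by
    intro φ h
    have h1 : ∀ x ∈ closedBall (0 : E) 1, φ x ≤ 1 := by
      intro x hx
      rw [hball] at hx
      have hconv : Convex ℝ {x : E | φ x ≤ 1} := by
        have := convex_halfSpace_le (𝕜 := ℝ) (f := fun x : E => φ x)
          ⟨fun x y => map_add φ x y, fun c x => map_smul φ c x⟩ 1
        exact this
      exact convexHull_min (fun v hv => h v hv) hconv hx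
    have h2 : ∀ x ∈ closedBall (0 : E) 1, |φ x| ≤ 1 := by
      intro x hx
      rw [abs_le]
      refine ⟨?_, h1 x hx⟩
      have := h1 (-x) (by simpa using hx)
      rw [map_neg] at this
      linarith
    show φ ∈ closedBall (0 : E →L[ℝ] ℝ) 1
    rw [mem_closedBall_zero_iff]
    refine φ.opNorm_le_of_unit_norm (by norm_num) (fun x hx => ?_)
    rw [Real.norm_eq_abs]
    exact h2 x (by simp [hx])
  have hDV : ∀ φ ∈ D, ∀ x : E, |φ x| ≤ ‖x‖ := by
    intro φ hφ x
    have h0 : ‖φ‖ ≤ 1 := by simpa [D] using hφ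
    calc |φ x| = ‖φ x‖ := (Real.norm_eq_abs _).symm
      _ ≤ ‖φ‖ * ‖x‖ := φ.le_opNorm x
      _ ≤ 1 * ‖x‖ := by gcongr
      _ = ‖x‖ := one_mul _
  have hV1 : ∀ v ∈ V, ‖v‖ ≤ 1 := by
    intro v hv
    have : v ∈ closedBall (0 : E) 1 := by
      rw [hball]; exact subset_convexHull ℝ V hv
    simpa using this
  have hDV1 : ∀ φ ∈ D, ∀ v ∈ V, φ v ≤ 1 := by
    intro φ hφ v hv
    exact (le_abs_self _).trans ((hDV φ hφ v).trans (hV1 v hv))
  -- finitely many extreme points
  have hfin : (D.extremePoints ℝ).Finite := by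
    let T : (E →L[ℝ] ℝ) → Set E := fun φ => {v ∈ V | φ v = 1}
    have hT : Set.MapsTo T (D.extremePoints ℝ) (Set.powerset V) := by
      intro φ _ v hv
      exact hv.1
    refine Set.Finite.of_finite_image (f := T)
      ((hV.finite_subsets).subset (Set.image_subset_iff.mpr (fun φ hφ => hT hφ))) ?_
    intro φ hφ ψ hψ hT'
    have hφD : φ ∈ D := hφ.1
    by_contra hne
    set δ := ψ - φ with hδ
    have hδ0 : δ ≠ 0 := sub_ne_zero.mpr (fun h => hne h.symm)
    have htight : ∀ v ∈ V, φ v = 1 → δ v = 0 := by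
      intro v hv h
      have : v ∈ T φ := ⟨hv, h⟩
      rw [hT'] at this
      have h2 : ψ v = 1 := this.2
      simp [hδ, h, h2]
    -- a small step
    obtain ⟨t, ht0, ht⟩ : ∃ t : ℝ, 0 < t ∧ ∀ v ∈ V, t * |δ v| ≤ 1 - φ v := by
      have : ∀ v ∈ V, ∃ t : ℝ, 0 < t ∧ t * |δ v| ≤ 1 - φ v := by
        intro v hv
        rcases eq_or_lt_of_le (hDV1 φ hφD v hv) with h | h
        · refine ⟨1, one_pos, ?_⟩
          simp [htight v hv h, h]
        · refine ⟨(1 - φ v) / (|δ v| + 1), by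
            have : 0 < |δ v| + 1 := by positivity
            apply div_pos <;> linarith, ?_⟩
          rw [div_mul_eq_mul_div, div_le_iff₀ (by positivity)]
          have : 0 < 1 - φ v := by linarith
          nlinarith [abs_nonneg (δ v)]
      choose! t ht0 ht using this
      rcases V.eq_empty_or_nonempty with hVe | hVne
      · exact ⟨1, one_pos, by simp [hVe]⟩
      · obtain ⟨v0, hv0, hmin⟩ := Set.exists_min_image V t hV hVne
        refine ⟨t v0, ht0 v0 hv0, fun v hv => ?_⟩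
        exact (mul_le_mul_of_nonneg_right (hmin v hv) (abs_nonneg _)).trans (ht v hv)
    have h1 : φ + t • δ ∈ D := by
      apply hVD
      intro v hv
      have := ht v hv
      have h2 := le_abs_self (δ v)
      simp only [add_apply, smul_apply, smul_eq_mul]
      nlinarith
    have h2 : φ - t • δ ∈ D := by
      apply hVD
      intro v hv
      have := ht v hv
      have h2 := neg_abs_le (δ v)
      simp only [sub_apply, smul_apply, smul_eq_mul]
      nlinarith
    have h3 := mem_extremePoints.mp hφ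
    have h4 : φ ∈ openSegment ℝ (φ + t • δ) (φ - t • δ) := by
      refine ⟨1/2, 1/2, by norm_num, by norm_num, by norm_num, ?_⟩
      ext x
      simp
      ring
    have h5 := (h3.2 _ h1 _ h2 h4)
    have h6 : φ + t • δ = φ := h5.1
    have h7 : t • δ = 0 := by simpa using h6
    rcases smul_eq_zero.mp h7 with h | h
    · exact ht0.ne' h
    · exact hδ0 h
  -- the norm is attained at an extreme point
  have hatt : ∀ x : E, ∃ φ ∈ D.extremePoints ℝ, φ x = ‖x‖ := by
    intro x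
    have hcomp : IsCompact D := isCompact_closedBall _ _
    let ev : (E →L[ℝ] ℝ) →L[ℝ] ℝ := ContinuousLinearMap.apply ℝ ℝ x
    let Fc : Set (E →L[ℝ] ℝ) := {φ ∈ D | φ x = ‖x‖}
    have hFc : IsCompact Fc := by
      apply hcomp.inter_right
      exact isClosed_eq (ev.continuous) continuous_const
    have hne : Fc.Nonempty := by
      obtain ⟨g, hg, hgx⟩ := exists_dual_vector'' ℝ x
      refine ⟨g, ?_, by simpa using hgx⟩
      show g ∈ closedBall (0 : E →L[ℝ] ℝ) 1
      simpa using hg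
    obtain ⟨φ, hφ⟩ := hFc.extremePoints_nonempty hne
    refine ⟨φ, ?_, hφ.1.2⟩
    rw [mem_extremePoints]
    refine ⟨hφ.1.1, ?_⟩
    intro φ₁ h₁ φ₂ h₂ hseg
    have hseg' := hseg
    obtain ⟨p, q, hp, hq, hpq, hc⟩ := hseg
    have e1 : φ₁ x ≤ ‖x‖ := (le_abs_self _).trans (hDV φ₁ h₁ x)
    have e2 : φ₂ x ≤ ‖x‖ := (le_abs_self _).trans (hDV φ₂ h₂ x)
    have e3 : p * φ₁ x + q * φ₂ x = ‖x‖ := by
      have := congrArg (fun f : E →L[ℝ] ℝ => f x) hc
      simp at this
      rw [this]; exact hφ.1.2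
    have e4 : φ₁ x = ‖x‖ := by
      have : p * (‖x‖ - φ₁ x) + q * (‖x‖ - φ₂ x) = 0 := by
        have : p * ‖x‖ + q * ‖x‖ = ‖x‖ := by rw [← add_mul, hpq, one_mul]
        linarith
      have h1 : 0 ≤ p * (‖x‖ - φ₁ x) := mul_nonneg hp.le (by linarith)
      have h2 : 0 ≤ q * (‖x‖ - φ₂ x) := mul_nonneg hq.le (by linarith)
      have h3 : p * (‖x‖ - φ₁ x) = 0 := by linarith
      rcases mul_eq_zero.mp h3 with h | h
      · exact absurd h hp.ne'
      · linarith
    have e5 : φ₂ x = ‖x‖ := by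
      have : q * φ₂ x = q * ‖x‖ := by
        have : p * ‖x‖ + q * ‖x‖ = ‖x‖ := by rw [← add_mul, hpq, one_mul]
        rw [e4] at e3; linarith
      exact mul_left_cancel₀ hq.ne' this
    exact (mem_extremePoints.mp hφ).2 φ₁ ⟨h₁, e4⟩ φ₂ ⟨h₂, e5⟩ hseg'
  let Φ := hfin.toFinset
  let e := Φ.equivFin
  refine ⟨Φ.card, fun i => ((e.symm i : E →L[ℝ] ℝ) : E →ₗ[ℝ] ℝ), ?_, ?_⟩
  · intro i x
    have : (e.symm i : E →L[ℝ] ℝ) ∈ D.extremePoints ℝ := hfin.mem_toFinset.mp (e.symm i).2
    exact hDV _ this.1 x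
  · intro x
    obtain ⟨φ, hφ, hx⟩ := hatt x
    refine ⟨e ⟨φ, hfin.mem_toFinset.mpr hφ⟩, ?_⟩
    simp only [Equiv.symm_apply_apply]
    show |φ x| = ‖x‖
    rw [hx, abs_of_nonneg (norm_nonneg x)]

end Pool.Agent.Lib.P1ea79a
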