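import Mathlib
import Pool.Agent.Lib.P1ea79a.Poly
import Pool.Agent.Lib.P1ea79a.MainFin

set_option autoImplicit false

namespace Pool.Agent.Lib.P1ea79a

/-- A copy of `ℝⁿ` without a topology. -/
def W (n : ℕ) : Type := Fin n → ℝ

instance (n : ℕ) : AddCommGroup (W n) := inferInstanceAs (AddCommGroup (Fin n → ℝ))

noncomputable instance (n : ℕ) : Module ℝ (W n) := inferInstanceAs (Module ℝ (Fin n → ℝ))

instance (n : ℕ) : FiniteDimensional ℝ (W n) :=
  inferInstanceAs (FiniteDimensional ℝ (Fin n → ℝ))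

/-- A norm on `ℝⁿ` whose closed unit ball is a polytope is the maximum of finitely many absolute
values of linear functionals. -/
theorem exists_nrm {n : ℕ} (N : (Fin n → ℝ) → ℝ) (hpos : ∀ x, x ≠ 0 → 0 < N x)
    (hsmul : ∀ (r : ℝ) (x : Fin n → ℝ), N (r • x) = |r| * N x)
    (hadd : ∀ x y, N (x + y) ≤ N x + N y)
    (V : Set (Fin n → ℝ)) (hV : V.Finite) (hball : {x | N x ≤ 1} = convexHull ℝ V) :
    ∃ (m : ℕ) (a : Fin m → Fin n → ℝ), ∀ x, N x = nrm a x := by
  classical
  have h0 : N 0 = 0 := by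
    have := hsmul 0 0
    simpa using this
  let _ : Norm (W n) := ⟨N⟩
  have core : NormedSpace.Core ℝ (W n) := by
    refine { norm_nonneg := ?_, norm_smul := ?_, norm_triangle := ?_, norm_eq_zero_iff := ?_ }
    · intro x
      by_cases hx : x = 0
      · subst hx; exact h0.ge
      · exact (hpos x hx).le
    · intro c x
      rw [Real.norm_eq_abs]
      exact hsmul c x
    · intro x y
      exact hadd x y
    · intro x
      constructor
      · intro h
        by_contra hx
        exact (hpos x hx).ne' h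
      · rintro rfl
        exact h0
  let i1 : NormedAddCommGroup (W n) := NormedAddCommGroup.ofCore core
  let i2 : NormedSpace ℝ (W n) := NormedSpace.ofCore core
  have hb : Metric.closedBall (0 : W n) 1 = convexHull ℝ (V : Set (W n)) := by
    have h1 : Metric.closedBall (0 : W n) 1 = {x : W n | N x ≤ 1} := by
      ext x
      rw [mem_closedBall_zero_iff]
      rfl
    rw [h1]
    exact hball
  obtain ⟨m, φ, hle, hatt⟩ := exists_functionals (E := W n) V hV hb
  let ψ : Fin m → (Fin n → ℝ) →ₗ[ℝ] ℝ := φ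
  have hle' : ∀ i (x : Fin n → ℝ), |ψ i x| ≤ N x := hle
  have hatt' : ∀ x : Fin n → ℝ, ∃ i, |ψ i x| = N x := hatt
  refine ⟨m, fun i j => ψ i (Pi.single j 1), fun x => ?_⟩
  have hf : ∀ i, fnl (fun i j => ψ i (Pi.single j 1)) i x = ψ i x := by
    intro i
    unfold fnl
    have : x = ∑ j, x j • (Pi.single j (1 : ℝ) : Fin n → ℝ) := by
      ext k
      simp [Finset.sum_apply, Pi.single_apply]
    conv_rhs => rw [this]
    rw [map_sum]
    refine Finset.sum_congr rfl fun j _ => ?_
    rw [map_smul, smul_eq_mul, mul_comm]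
  obtain ⟨i, hi⟩ := hatt' x
  have : Nonempty (Fin m) := ⟨i⟩
  apply le_antisymm
  · rw [← hi, ← hf i]
    exact abs_fnl_le_nrm _ i x
  · obtain ⟨k, hk⟩ := exists_nrm_eq (fun i j => ψ i (Pi.single j 1)) x
    rw [← hk, hf k]
    exact hle' k x

end Pool.Agent.Lib.P1ea79a
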